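import Pool.Agent.ArtSph.Prod

set_option autoImplicit false

namespace Pool.Agent.Results.MP_b59cc7_al.FiniteIndexNormaliser

open Pool.Agent.ArtSph

/-- Let `A` be the Artin group of a finite Coxeter matrix `M` (`R` is the set of its relators). There
is a set `T` of generators, with finite Coxeter group `W_T` and commuting with all the other
generators, such that `A_T` contains every subgroup `H` of `A` which is normalised by a subgroup `L`
of finite index of `A` and whose elements lie in spherical parabolic subgroups. -/
theorem result :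
    ∀ (B : Type) [Finite B] (M : CoxeterMatrix B) (R : Set (FreeGroup B)),
      R = {r : FreeGroup B | ∃ i j : B, M i j ≠ 0 ∧
          r = ((FreeGroup.of i * FreeGroup.of j) ^ (M i j / 2) * FreeGroup.of i ^ (M i j % 2)) *
            ((FreeGroup.of j * FreeGroup.of i) ^ (M i j / 2) * FreeGroup.of j ^ (M i j % 2))⁻¹} →
      ∃ T : Set B,
        ((Subgroup.closure (M.simple '' T) : Subgroup M.Group) : Set M.Group).Finite ∧
        (∀ i ∈ T, ∀ j, j ∉ T → M i j = 2) ∧
        ∀ H L : Subgroup (PresentedGroup R), L.FiniteIndex →
          (∀ g ∈ L, ∀ h ∈ H, g * h * g⁻¹ ∈ H) →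
          (∀ h ∈ H, ∃ V : Set B,
            ((Subgroup.closure (M.simple '' V) : Subgroup M.Group) : Set M.Group).Finite ∧
            ∃ g, g⁻¹ * h * g ∈ Subgroup.closure (PresentedGroup.of '' V)) →
          ∀ h ∈ H, h ∈ Subgroup.closure (PresentedGroup.of '' T) := by
  intro B hB M R hR
  have := Fintype.ofFinite B
  have hR' : R = artRels M := hR
  subst hR'
  refine ⟨TT M, Sph_TT M, fun i hi j hj => TT_two M hi hj, ?_⟩
  intro H L hL hLH hH
  have hH' : ES M H := hH
  exact norm_fi M hH' hL hLH

end Pool.Agent.Results.MP_b59cc7_al.FiniteIndexNormaliser
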