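import Pool.Agent.LRed.Main3

set_option autoImplicit false

namespace Pool.Agent.Results.MP_b59cc7_al.LocallyReducible

open Pool.Agent.ArtSph Pool.Agent.EvA Pool.Agent.LRed

/-- Let `A` be an Artin group on finitely many generators (`R` is the set of its relators; the label
`0` of a Coxeter matrix means infinity), `θ` its natural map to the Coxeter group `W` and `H` a
subgroup each of whose elements lies in some spherical parabolic subgroup. Assume that `A` is even
(all labels are even or infinite), or locally reducible (no three generators generate an irreducible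
finite Coxeter group), or, more generally and for any `A`, that every element of `H` lies in a
spherical parabolic subgroup whose type has a Coxeter graph with components of at most two vertices.

Then there are one set `T` of generators of such a type, one `w` in `W` and an injective homomorphism
`f` of `H` to the standard parabolic subgroup `A_T` such that for every `h` in `H` there is `g` in `A`
with `g⁻¹ h g = f h` and `θ g = w`: so all conjugating elements can be taken in one coset of the pure
Artin group. If `A` is even then the retraction of `A` onto `A_T` which kills the other generators is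
also injective on `H`, and sends every element of `H` to a conjugate. -/
theorem result :
    ∀ (B : Type) [Finite B] (M : CoxeterMatrix B) (R : Set (FreeGroup B)),
      R = {r : FreeGroup B | ∃ i j : B, M i j ≠ 0 ∧
          r = ((FreeGroup.of i * FreeGroup.of j) ^ (M i j / 2) * FreeGroup.of i ^ (M i j % 2)) *
            ((FreeGroup.of j * FreeGroup.of i) ^ (M i j / 2) * FreeGroup.of j ^ (M i j % 2))⁻¹} →
      ∀ θ : PresentedGroup R →* M.Group, (∀ i, θ (PresentedGroup.of i) = M.simple i) →
      ∀ H : Subgroup (PresentedGroup R),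
      (∀ h ∈ H, ∃ T : Set B,
          ((Subgroup.closure (M.simple '' T) : Subgroup M.Group) : Set M.Group).Finite ∧
          ∃ g, g⁻¹ * h * g ∈ Subgroup.closure (PresentedGroup.of '' T)) →
      (∀ i j : B, i ≠ j → Even (M i j)) ∨
        (∀ s t u : B, s ≠ t → s ≠ u → t ≠ u →
          ((Subgroup.closure (M.simple '' {s, t, u}) : Subgroup M.Group) : Set M.Group).Finite →
          M s t = 2 ∨ M s u = 2) ∨
        (∀ h ∈ H, ∃ T : Set B,
          ((Subgroup.closure (M.simple '' T) : Subgroup M.Group) : Set M.Group).Finite ∧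
          (∀ s ∈ T, ∀ t ∈ T, ∀ u ∈ T, s ≠ t → s ≠ u → t ≠ u → M s t = 2 ∨ M s u = 2) ∧
          ∃ g, g⁻¹ * h * g ∈ Subgroup.closure (PresentedGroup.of '' T)) →
      ∃ (T : Set B) (w : M.Group) (f : ↥H →* ↥(Subgroup.closure (PresentedGroup.of '' T) :
          Subgroup (PresentedGroup R))),
        ((Subgroup.closure (M.simple '' T) : Subgroup M.Group) : Set M.Group).Finite ∧
        (∀ s ∈ T, ∀ t ∈ T, ∀ u ∈ T, s ≠ t → s ≠ u → t ≠ u → M s t = 2 ∨ M s u = 2) ∧
        Function.Injective f ∧
        (∀ h : ↥H, ∃ g : PresentedGroup R, θ g = w ∧ g⁻¹ * h.1 * g = (f h).1) ∧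
        ((∀ i j : B, i ≠ j → Even (M i j)) →
          ∃ ρ : PresentedGroup R →* PresentedGroup R,
            (∀ i ∈ T, ρ (PresentedGroup.of i) = PresentedGroup.of i) ∧
            (∀ i ∉ T, ρ (PresentedGroup.of i) = 1) ∧
            Set.InjOn ρ (H : Set (PresentedGroup R)) ∧ ∀ h ∈ H, ∃ g, g⁻¹ * h * g = ρ h) := by
  intro B hB M R hR θ hθ H hH hM
  have := Fintype.ofFinite B
  have hR' : R = artRels M := hR
  subst hR'
  have hth : θ = th M := by
    apply PresentedGroup.ext
    intro i
    rw [hθ]
    exact (theta_ag M.toCoxeterSystem i).symm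
  subst hth
  have hH' : ES M H := hH
  have hH2 : ES2 M H := by
    rcases hM with hE | hLR | h2
    · intro h hh
      obtain ⟨T, hT, g, hg⟩ := hH' h hh
      refine ⟨T, ⟨hT, fun s hs t ht u hu hst hsu htu => ?_⟩, g, hg⟩
      by_cases h2 : M s t = 2
      · exact Or.inl h2
      · exact Or.inr (no_fork hT hE hs ht hu hst hsu htu h2)
    · intro h hh
      obtain ⟨T, hT, g, hg⟩ := hH' h hh
      refine ⟨T, ⟨hT, fun s hs t ht u hu hst hsu htu => ?_⟩, g, hg⟩
      exact hLR s t u hst hsu htu (Sph_mono (by
        rintro x (rfl | rfl | rfl) <;> assumption) hT)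
    · intro h hh
      obtain ⟨T, hT, h3, g, hg⟩ := h2 h hh
      exact ⟨T, ⟨hT, h3⟩, g, hg⟩
  obtain ⟨V, w₀, hV, -, h1⟩ := lr_main3 hH2
  let F : ↥H →* Art M :=
    { toFun := fun h => artMap (Subtype.val : V → B) (pull_lab M _ Subtype.val_injective)
        (pc M (Subtype.val : V → B) Subtype.val_injective w₀ h.1)
      map_one' := by
        have h2 : pc M (Subtype.val : V → B) Subtype.val_injective w₀ ((1 : ↥H) : Art M) = 1 :=
          coc_one _ _ _ _
        rw [h2, map_one]
      map_mul' := by
        intro a b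
        have h2 := pc_mul_of w₀ a.1 b.1 (h1 a.1 a.2).1
        have h3 : ((a * b : ↥H) : Art M) = a.1 * b.1 := rfl
        rw [h3, h2, map_mul] }
  have hF : ∀ h : ↥H, F h ∈ (Subgroup.closure (PresentedGroup.of '' V) :
      Subgroup (PresentedGroup (artRels M))) := by
    intro h
    show artMap (Subtype.val : V → B) (pull_lab M _ Subtype.val_injective)
        (pc M (Subtype.val : V → B) Subtype.val_injective w₀ h.1) ∈ _
    generalize pc M (Subtype.val : V → B) Subtype.val_injective w₀ h.1 = a
    induction a using art_induction with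
    | h1 => rw [map_one]; exact Subgroup.one_mem _
    | hg i => rw [artMap_ag]; exact Subgroup.subset_closure ⟨_, i.2, rfl⟩
    | hm a b ha hb => rw [map_mul]; exact Subgroup.mul_mem _ ha hb
    | hi a ha => rw [map_inv]; exact Subgroup.inv_mem _ ha
  let f : ↥H →* ↥(Subgroup.closure (PresentedGroup.of '' V) :
      Subgroup (PresentedGroup (artRels M))) := MonoidHom.codRestrict F _ hF
  have hcon : ∀ h : ↥H, ∃ g : PresentedGroup (artRels M), th M g = w₀⁻¹ ∧
      g⁻¹ * h.1 * g = (f h).1 := by
    intro h
    obtain ⟨e, he0, he⟩ := (h1 h.1 h.2).2.1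
    refine ⟨e⁻¹, by rw [map_inv, he0], ?_⟩
    rw [inv_inv, ← he]
    rfl
  refine ⟨V, w₀⁻¹, f, hV.1, hV.2, ?_, hcon, ?_⟩
  · rw [injective_iff_map_eq_one]
    intro a ha
    obtain ⟨g, -, hg⟩ := hcon a
    rw [ha] at hg
    have h3 : a.1 = g * (g⁻¹ * a.1 * g) * g⁻¹ := by group
    rw [hg] at h3
    apply Subtype.ext
    rw [h3]; simp
  · intro hE
    have hM' : EvM M := hE
    have hrc : ∀ h ∈ H, ∃ g, g⁻¹ * h * g = rt hM' V h := by
      intro h hh
      obtain ⟨Y, b, l, hbl, hl, hcn⟩ := (h1 h hh).2.2
      obtain ⟨g, hg⟩ := even_rt hM' hl hcn (b := b)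
      refine ⟨g⁻¹, ?_⟩
      rw [inv_inv, hbl, hg]
    refine ⟨rt hM' V, fun i hi => rt_in hM' hi, fun i hi => rt_out hM' hi, ?_, hrc⟩
    intro a ha b hb hab
    have h2 : rt hM' V (a * b⁻¹) = 1 := by rw [map_mul, map_inv, hab, mul_inv_cancel]
    obtain ⟨g, hg⟩ := hrc (a * b⁻¹) (H.mul_mem ha (H.inv_mem hb))
    rw [h2] at hg
    have h3 : a * b⁻¹ = g * (g⁻¹ * (a * b⁻¹) * g) * g⁻¹ := by group
    rw [hg, mul_one, mul_inv_cancel] at h3
    exact mul_inv_eq_one.1 h3

end Pool.Agent.Results.MP_b59cc7_al.LocallyReducible
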