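import Pool.Agent.ArtSph.Pos

set_option autoImplicit false

namespace Pool.Agent.Results.MP_b59cc7_al.PositiveElements

open Pool.Agent.ArtSph

/-- Let `A` be the Artin group of a finite Coxeter matrix `M` (`R` is the set of its relators), and
`P` a monoid of positive elements of `A` (products of the generators without inverses), each of
which lies in a spherical parabolic subgroup of `A`. Then one standard spherical parabolic subgroup
contains `P`, hence the subgroup generated by `P`. -/
theorem result :
    ∀ (B : Type) [Finite B] (M : CoxeterMatrix B) (R : Set (FreeGroup B)),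
      R = {r : FreeGroup B | ∃ i j : B, M i j ≠ 0 ∧
          r = ((FreeGroup.of i * FreeGroup.of j) ^ (M i j / 2) * FreeGroup.of i ^ (M i j % 2)) *
            ((FreeGroup.of j * FreeGroup.of i) ^ (M i j / 2) * FreeGroup.of j ^ (M i j % 2))⁻¹} →
      ∀ P : Submonoid (PresentedGroup R), P ≤ Submonoid.closure (Set.range PresentedGroup.of) →
        (∀ h ∈ P, ∃ V : Set B,
          ((Subgroup.closure (M.simple '' V) : Subgroup M.Group) : Set M.Group).Finite ∧
          ∃ g, g⁻¹ * h * g ∈ Subgroup.closure (PresentedGroup.of '' V)) →
        ∃ T : Set B,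
          ((Subgroup.closure (M.simple '' T) : Subgroup M.Group) : Set M.Group).Finite ∧
          ∀ h ∈ Subgroup.closure (P : Set (PresentedGroup R)),
            h ∈ Subgroup.closure (PresentedGroup.of '' T) := by
  intro B hB M R hR
  have := Fintype.ofFinite B
  have hR' : R = artRels M := hR
  subst hR'
  intro P hP hES
  obtain ⟨X, hX, h⟩ := pos_main P hP hES
  refine ⟨X, hX, ?_⟩
  have h2 : Subgroup.closure (P : Set (Art M)) ≤ Subgroup.closure (ag M '' X) := by
    rw [Subgroup.closure_le]
    exact h
  exact fun x hx => h2 hx

end Pool.Agent.Results.MP_b59cc7_al.PositiveElements
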