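import Pool.Agent.ArtSph.Fin

set_option autoImplicit false

namespace Pool.Agent.Results.MP_b59cc7_al.PureEmbedding

open Pool.Agent.ArtSph

/-- Let `A` be the Artin group of a finite Coxeter matrix `M` (`R` is the set of its relators). There
is a bound `n` such that every subgroup `H` of `A` whose elements lie in spherical parabolic
subgroups meets the pure Artin group `θ.ker` in a subgroup of index at most `n`, and the whole pure
Artin group has a homomorphism to a direct product of at most `n` standard spherical parabolic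
subgroups which is injective on the pure part of `H`. -/
theorem result :
    ∀ (B : Type) [Finite B] (M : CoxeterMatrix B) (R : Set (FreeGroup B)),
      R = {r : FreeGroup B | ∃ i j : B, M i j ≠ 0 ∧
          r = ((FreeGroup.of i * FreeGroup.of j) ^ (M i j / 2) * FreeGroup.of i ^ (M i j % 2)) *
            ((FreeGroup.of j * FreeGroup.of i) ^ (M i j / 2) * FreeGroup.of j ^ (M i j % 2))⁻¹} →
      ∃ n : ℕ, ∀ (θ : PresentedGroup R →* M.Group), (∀ i, θ (PresentedGroup.of i) = M.simple i) →
      ∀ H : Subgroup (PresentedGroup R),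
      (∀ h ∈ H, ∃ T : Set B,
          ((Subgroup.closure (M.simple '' T) : Subgroup M.Group) : Set M.Group).Finite ∧
          ∃ g, g⁻¹ * h * g ∈ Subgroup.closure (PresentedGroup.of '' T)) →
      (θ.ker.relIndex H ≠ 0 ∧ θ.ker.relIndex H ≤ n) ∧
      ∃ (k : ℕ) (X : Fin k → Set B), k ≤ n ∧
        (∀ i, ((Subgroup.closure (M.simple '' X i) : Subgroup M.Group) : Set M.Group).Finite) ∧
        ∃ f : ↥θ.ker →* (∀ i, ↥(Subgroup.closure (PresentedGroup.of '' X i) :
            Subgroup (PresentedGroup R))),
          ∀ h : ↥θ.ker, h.1 ∈ H → f h = 1 → h = 1 := by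
  intro B hB M R hR
  have := Fintype.ofFinite B
  have hR' : R = artRels M := hR
  subst hR'
  obtain ⟨n, hn⟩ := pure_relIndex M
  refine ⟨max n (nB M), ?_⟩
  intro θ hθ H hH
  have hth : θ = th M := by
    apply PresentedGroup.ext
    intro i
    rw [hθ]
    exact (theta_ag M.toCoxeterSystem i).symm
  subst hth
  have hH' : ES M H := hH
  obtain ⟨h1, h2⟩ := hn H hH'
  refine ⟨⟨h1, h2.trans (le_max_left _ _)⟩, ?_⟩
  obtain ⟨ι, hι, X, hcard, hX, f, hf⟩ := embed hH'
  have e : ι ≃ Fin (Nat.card ι) := Finite.equivFin ι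
  refine ⟨Nat.card ι, fun i => X (e.symm i), hcard.trans (le_max_right _ _),
    fun i => hX _, ?_⟩
  refine ⟨{ toFun := fun h i => f h (e.symm i)
            map_one' := by funext i; rw [map_one]; rfl
            map_mul' := by intro a b; funext i; rw [map_mul]; rfl }, ?_⟩
  intro h hh hh1
  apply Subtype.ext
  apply hf h hh
  funext i
  have h3 := congrFun hh1 (e i)
  have h4 : f h (e.symm (e i)) = 1 := h3
  have h5 : e.symm (e i) = i := e.symm_apply_apply i
  rw [h5] at h4
  exact h4

end Pool.Agent.Results.MP_b59cc7_al.PureEmbedding
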